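import Pool.Agent.HomT.Iso
import Pool.Agent.HomV.Aff

/-!
# Good graphs with the isoperimetric property (helper32)

A torus of cells; every cell is the graph of the affine plane over `ZMod p`, neighbouring cells are
joined by `p` edges.
-/

set_option autoImplicit false

namespace Pool.Agent.HomT

open Finset Classical Pool.Agent.HomV

theorem affX_good (Q p : ℕ) [Fact p.Prime] (hpQ : 5 * Q + 10 ≤ p) : Good (affX p) univ Q := by
  refine ⟨?_, ?_, ?_, ?_, ?_⟩
  · rintro (a | a) (b | b) (c | c) h1 h2 h3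
    · exact affX_adj_ll _ _ h1
    · exact affX_adj_ll _ _ h1
    · exact affX_adj_ll _ _ h3
    · exact affX_adj_rr _ _ h2
    · exact affX_adj_ll _ _ h2
    · exact affX_adj_rr _ _ h3
    · exact affX_adj_rr _ _ h1
    · exact affX_adj_rr _ _ h1
  · rintro (a | a) (b | b) (c | c) (d | d) h1 h2 h3 h4
    · exact absurd h1 (affX_adj_ll _ _)
    · exact absurd h1 (affX_adj_ll _ _)
    · exact absurd h1 (affX_adj_ll _ _)
    · exact absurd h1 (affX_adj_ll _ _)
    · exact absurd h3 (affX_adj_ll _ _)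
    · rcases aff_c4 (P := a) (P' := c) (l := b) (l' := d) h1 h2 h4 h3 with h | h
      · exact Or.inl (by rw [h])
      · exact Or.inr (by rw [h])
    · exact absurd h2 (affX_adj_rr _ _)
    · exact absurd h2 (affX_adj_rr _ _)
    · exact absurd h2 (affX_adj_ll _ _)
    · exact absurd h2 (affX_adj_ll _ _)
    · rcases aff_c4 (P := b) (P' := d) (l := a) (l' := c) h1 h4 h2 h3 with h | h
      · exact Or.inr (by rw [h])
      · exact Or.inl (by rw [h])
    · exact absurd h3 (affX_adj_rr _ _)
    · exact absurd h1 (affX_adj_rr _ _)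
    · exact absurd h1 (affX_adj_rr _ _)
    · exact absurd h1 (affX_adj_rr _ _)
    · exact absurd h1 (affX_adj_rr _ _)
  · rintro (P | l) -
    · have h1 : (univ.image fun m : ZMod p => (Sum.inr (m, P.2 - m * P.1) : AffU p)).card ≤
          (univ.filter (fun j => (affX p).Adj (Sum.inl P) j)).card := by
        refine Finset.card_le_card fun x hx => ?_
        obtain ⟨m, _, rfl⟩ := Finset.mem_image.1 hx
        rw [Finset.mem_filter]
        exact ⟨Finset.mem_univ _, by rw [affX_adj_lr]; ring⟩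
      rw [Finset.card_image_of_injective _ (fun m m' h => by simpa using (congrArg Prod.fst
        (Sum.inr.inj h))), Finset.card_univ, ZMod.card] at h1
      omega
    · have h1 : (univ.image fun x : ZMod p => (Sum.inl (x, l.1 * x + l.2) : AffU p)).card ≤
          (univ.filter (fun j => (affX p).Adj (Sum.inr l) j)).card := by
        refine Finset.card_le_card fun x hx => ?_
        obtain ⟨m, _, rfl⟩ := Finset.mem_image.1 hx
        rw [Finset.mem_filter]
        exact ⟨Finset.mem_univ _, by rw [affX_adj_rl]⟩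
      rw [Finset.card_image_of_injective _ (fun m m' h => by simpa using (congrArg Prod.fst
        (Sum.inl.inj h))), Finset.card_univ, ZMod.card] at h1
      omega
  · intro S hS T hT hTne hRne
    by_contra hcon
    push Not at hcon
    -- adjacent vertices outside of `S` are on the same side
    have key : ∀ i j, i ∉ S → j ∉ S → (affX p).Adj i j → i ∈ T → j ∈ T := by
      intro i j _ hj hij hi
      by_contra hjT
      exact hcon i hi j (by simp [hj, hjT]) hij
    have side : ∀ i j, i ∉ S → j ∉ S → (affX p).Adj i j → (i ∈ T ↔ j ∈ T) :=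
      fun i j hi hj hij => ⟨key i j hi hj hij, key j i hj hi hij.symm⟩
    -- two points
    have two : ∀ P P' : ZMod p × ZMod p, Sum.inl P ∉ S → Sum.inl P' ∉ S →
        ((Sum.inl P : AffU p) ∈ T ↔ (Sum.inl P' : AffU p) ∈ T) := by
      intro P P' hP hP'
      obtain ⟨m₀, hm₀⟩ := exists_not_mem
        (fun m : ZMod p => (Sum.inr (m, P.2 - m * P.1) : AffU p))
        (fun m m' h => by simpa using (congrArg Prod.fst (Sum.inr.inj h))) S (by omega)
      set b₀ : ZMod p := P.2 - m₀ * P.1 with hb₀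
      have hPl : ((Sum.inl P : AffU p) ∈ T ↔ (Sum.inr (m₀, b₀) : AffU p) ∈ T) :=
        side _ _ hP hm₀ (by rw [affX_adj_lr]; simp only [hb₀]; ring)
      rw [hPl]
      set c : ZMod p := P'.2 - m₀ * P'.1 - b₀ with hc
      by_cases hc0 : c = 0
      · exact side _ _ hm₀ hP' (by
          rw [affX_adj_rl]
          simp only
          linear_combination hc.symm.trans hc0)
      · -- the points of intersection
        have hex : ∃ m : ZMod p, m ≠ m₀ ∧ (Sum.inr (m, P'.2 - m * P'.1) : AffU p) ∉ S ∧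
            (Sum.inl (P'.1 + c / (m₀ - m), m₀ * (P'.1 + c / (m₀ - m)) + b₀) : AffU p) ∉ S := by
          by_contra hno
          push Not at hno
          set A : Finset (ZMod p) := univ.filter
            (fun m => (Sum.inr (m, P'.2 - m * P'.1) : AffU p) ∈ S) with hA
          set B : Finset (ZMod p) := univ.filter (fun m => m ≠ m₀ ∧
            (Sum.inl (P'.1 + c / (m₀ - m), m₀ * (P'.1 + c / (m₀ - m)) + b₀) : AffU p) ∈ S) with hB
          have hcov : (univ : Finset (ZMod p)) ⊆ {m₀} ∪ (A ∪ B) := by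
            intro m _
            rw [Finset.mem_union, Finset.mem_union, Finset.mem_singleton]
            by_cases h1 : m = m₀
            · exact Or.inl h1
            · right
              by_cases h2 : (Sum.inr (m, P'.2 - m * P'.1) : AffU p) ∈ S
              · exact Or.inl (by rw [hA, Finset.mem_filter]; exact ⟨Finset.mem_univ _, h2⟩)
              · exact Or.inr (by
                  rw [hB, Finset.mem_filter]
                  exact ⟨Finset.mem_univ _, h1, hno m h1 h2⟩)
          have hAc : A.card ≤ S.card := card_pre_le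
            (fun m : ZMod p => (Sum.inr (m, P'.2 - m * P'.1) : AffU p)) A
            (fun m _ m' _ h => by simpa using (congrArg Prod.fst (Sum.inr.inj h))) S
            (fun m hm => (Finset.mem_filter.1 hm).2)
          have hBc : B.card ≤ S.card := card_pre_le
            (fun m : ZMod p => (Sum.inl (P'.1 + c / (m₀ - m), m₀ * (P'.1 + c / (m₀ - m)) + b₀) :
              AffU p)) B
            (fun m hm m' hm' h => by
              have hm1 : m₀ - m ≠ 0 := sub_ne_zero.2 (Ne.symm (Finset.mem_filter.1 hm).2.1)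
              have hm2 : m₀ - m' ≠ 0 := sub_ne_zero.2 (Ne.symm (Finset.mem_filter.1 hm').2.1)
              have h1 : P'.1 + c / (m₀ - m) = P'.1 + c / (m₀ - m') :=
                congrArg Prod.fst (Sum.inl.inj h)
              have h2 := add_left_cancel h1
              rw [div_eq_div_iff hm1 hm2] at h2
              have h3 := mul_left_cancel₀ hc0 h2
              linear_combination h3) S
            (fun m hm => (Finset.mem_filter.1 hm).2.2)
          have h1 := Finset.card_le_card hcov
          rw [Finset.card_univ, ZMod.card] at h1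
          have h2 := Finset.card_union_le ({m₀} : Finset (ZMod p)) (A ∪ B)
          have h3 := Finset.card_union_le A B
          rw [Finset.card_singleton] at h2
          omega
        obtain ⟨m, hm, h1, h2⟩ := hex
        have hm1 : m₀ - m ≠ 0 := sub_ne_zero.2 (Ne.symm hm)
        rw [side _ _ hm₀ h2 (by rw [affX_adj_rl])]
        rw [side _ _ h2 h1 (by
          rw [affX_adj_lr]
          simp only
          have h3 : (m₀ - m) * (c / (m₀ - m)) = c := by
            field_simp
          linear_combination h3 + hc)]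
        exact side _ _ h1 hP' (by rw [affX_adj_rl]; ring)
    -- every vertex outside of `S` has a point outside of `S` on the same side
    have pt : ∀ i, i ∉ S → ∃ P : ZMod p × ZMod p, Sum.inl P ∉ S ∧
        (i ∈ T ↔ (Sum.inl P : AffU p) ∈ T) := by
      rintro (P | l) hi
      · exact ⟨P, hi, Iff.rfl⟩
      · obtain ⟨x, hx⟩ := exists_not_mem
          (fun x : ZMod p => (Sum.inl (x, l.1 * x + l.2) : AffU p))
          (fun m m' h => by simpa using (congrArg Prod.fst (Sum.inl.inj h))) S (by omega)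
        exact ⟨_, hx, side _ _ hi hx (by rw [affX_adj_rl])⟩
    obtain ⟨i, hi⟩ := hTne
    obtain ⟨j, hj⟩ := hRne
    have hiS : i ∉ S := by simpa using hT hi
    have hj' : j ∉ S ∧ j ∉ T := by simpa using hj
    have hjS : j ∉ S := hj'.1
    have hjT : j ∉ T := hj'.2
    obtain ⟨P, hP, hP'⟩ := pt i hiS
    obtain ⟨P', hP1, hP2⟩ := pt j hjS
    exact hjT (hP2.2 ((two P P' hP hP1).1 (hP'.1 hi)))
  · exact ⟨Sum.inl (0, 0), Finset.mem_univ _⟩

/-! ### The torus of cells -/

/-- the opposite direction -/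
def opp : Fin 4 → Fin 4 := ![1, 0, 3, 2]

/-- the four directions -/
def dr (N : ℕ) : Fin 4 → ZMod N × ZMod N := ![(1, 0), (-1, 0), (0, 1), (0, -1)]

/-- the second coordinate of the ports -/
def io (p : ℕ) (c : Fin 4) : ZMod p := ((c : ℕ) : ZMod p)

theorem opp_opp (c : Fin 4) : opp (opp c) = c := by
  fin_cases c <;> rfl

theorem dr_opp (N : ℕ) (c : Fin 4) : dr N (opp c) = - dr N c := by
  fin_cases c <;> simp [dr, opp]

theorem dr_ne (N : ℕ) [Fact (1 < N)] (c : Fin 4) : dr N c ≠ 0 := by
  fin_cases c <;> simp [dr, Prod.ext_iff]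

theorem io_inj {p : ℕ} (hp : 4 ≤ p) {c c' : Fin 4} (h : io p c = io p c') : c = c' := by
  unfold io at h
  rw [ZMod.natCast_eq_natCast_iff', Nat.mod_eq_of_lt (by omega), Nat.mod_eq_of_lt (by omega)] at h
  exact Fin.ext h

/-- the vertices -/
abbrev GU (N p : ℕ) : Type := (ZMod N × ZMod N) × AffU p

/-- the edges between neighbouring cells -/
def Ex (N p : ℕ) (a b : GU N p) : Prop :=
  ∃ (c : Fin 4) (x : ZMod p), a.2 = Sum.inl (x, io p c) ∧
    b = (a.1 + dr N c, Sum.inl (x, io p (opp c)))

theorem Ex.symm {N p : ℕ} {a b : GU N p} (h : Ex N p a b) : Ex N p b a := by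
  obtain ⟨c, x, h1, rfl⟩ := h
  refine ⟨opp c, x, rfl, ?_⟩
  refine Prod.ext ?_ ?_
  · rw [dr_opp]
    simp
  · rw [opp_opp]
    exact h1

theorem Ex.unique {N p : ℕ} (hp : 4 ≤ p) {a b b' : GU N p} (h : Ex N p a b) (h' : Ex N p a b') :
    b = b' := by
  obtain ⟨c, x, h1, rfl⟩ := h
  obtain ⟨c', x', h1', rfl⟩ := h'
  rw [h1] at h1'
  have h2 := Sum.inl.inj h1'
  have h3 : x = x' := congrArg Prod.fst h2
  have h4 : c = c' := io_inj hp (congrArg Prod.snd h2)
  subst h3 h4
  rfl

theorem Ex.ne {N p : ℕ} [Fact (1 < N)] {a b : GU N p} (h : Ex N p a b) : a.1 ≠ b.1 := by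
  obtain ⟨c, x, h1, rfl⟩ := h
  intro h
  exact dr_ne N c (left_eq_add.1 h)

theorem Ex.point {N p : ℕ} {a b : GU N p} (h : Ex N p a b) : ∃ P, a.2 = Sum.inl P := by
  obtain ⟨c, x, h1, -⟩ := h
  exact ⟨_, h1⟩

/-- the graph -/
def gX (N p : ℕ) [Fact (1 < N)] : SimpleGraph (GU N p) where
  Adj a b := (a.1 = b.1 ∧ (affX p).Adj a.2 b.2) ∨ Ex N p a b
  symm := ⟨fun _ _ h => h.elim (fun h => Or.inl ⟨h.1.symm, h.2.symm⟩) fun h => Or.inr h.symm⟩
  loopless := ⟨fun _ h => h.elim (fun h => h.2.ne rfl) fun h => h.ne rfl⟩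

variable {N p : ℕ} [Fact (1 < N)]

theorem no_pp {a b : AffU p} (h : (affX p).Adj a b) {P P' : ZMod p × ZMod p}
    (ha : a = Sum.inl P) (hb : b = Sum.inl P') : False := by
  subst ha hb
  exact affX_adj_ll _ _ h

theorem tri_ext (hp : 4 ≤ p) {a b c : GU N p} (h1 : Ex N p a b) (h2 : (gX N p).Adj b c)
    (h3 : (gX N p).Adj c a) : False := by
  rcases h2 with h2 | h2
  · rcases h3 with h3 | h3
    · exact h1.ne (h3.1.symm.trans h2.1.symm)
    · have h4 := h1.unique hp h3.symm
      rw [h4] at h2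
      exact h2.2.ne rfl
  · have h4 := h1.symm.unique hp h2
    rw [h4] at h3
    exact h3.ne rfl

theorem c4_ext (hp : 4 ≤ p) {a b c d : GU N p} (h1 : Ex N p a b) (h2 : (gX N p).Adj b c)
    (h3 : (gX N p).Adj c d) (h4 : (gX N p).Adj d a) : a = c ∨ b = d := by
  rcases h2 with h2 | h2
  · rcases h4 with h4 | h4
    · rcases h3 with h3 | h3
      · exact absurd (h4.1.symm.trans (h3.1.symm.trans h2.1.symm)) h1.ne
      · obtain ⟨P, hP⟩ := h1.symm.point
        obtain ⟨P', hP'⟩ := h3.point
        exact (no_pp h2.2 hP hP').elim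
    · exact Or.inr (h1.unique hp h4.symm)
  · exact Or.inl (h1.symm.unique hp h2)

omit [Fact (1 < N)] in
/-- constant along both directions -/
theorem torus_const [NeZero N] {s : ZMod N × ZMod N → Prop}
    (h : ∀ g c, s g ↔ s (g + dr N c)) (g g' : ZMod N × ZMod N) : s g ↔ s g' := by
  have h0 : ∀ (m : ℕ) (g : ZMod N × ZMod N), s g ↔ s (g + ((m : ZMod N), 0)) := by
    intro m
    induction m with
    | zero =>
      intro g
      have : g + (((0 : ℕ) : ZMod N), 0) = g := by
        refine Prod.ext ?_ ?_ <;> simp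
      rw [this]
    | succ m ih =>
      intro g
      rw [ih g, h _ 0]
      have : g + ((m : ZMod N), 0) + dr N 0 = g + (((m + 1 : ℕ) : ZMod N), 0) := by
        refine Prod.ext ?_ ?_
        · simp [dr, add_assoc]
        · simp [dr]
      rw [this]
  have h1 : ∀ (m : ℕ) (g : ZMod N × ZMod N), s g ↔ s (g + (0, (m : ZMod N))) := by
    intro m
    induction m with
    | zero =>
      intro g
      have : g + (0, ((0 : ℕ) : ZMod N)) = g := by
        refine Prod.ext ?_ ?_ <;> simp
      rw [this]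
    | succ m ih =>
      intro g
      rw [ih g, h _ 2]
      have : g + (0, (m : ZMod N)) + dr N 2 = g + (0, ((m + 1 : ℕ) : ZMod N)) := by
        refine Prod.ext ?_ ?_
        · simp [dr]
        · simp [dr, add_assoc]
      rw [this]
  have h2 : ∀ g : ZMod N × ZMod N, s 0 ↔ s g := by
    intro g
    rw [h0 g.1.val 0, h1 g.2.val]
    have : (0 : ZMod N × ZMod N) + ((g.1.val : ZMod N), 0) + (0, (g.2.val : ZMod N)) = g := by
      refine Prod.ext ?_ ?_ <;> simp
    rw [this]
  exact (h2 g).symm.trans (h2 g')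

omit [Fact (1 < N)] in
theorem line_const [NeZero N] {f : ZMod N → ZMod 2} (h : ∀ j, f j = f (j + 1)) (j j' : ZMod N) :
    f j = f j' := by
  have h0 : ∀ m : ℕ, f 0 = f (m : ZMod N) := by
    intro m
    induction m with
    | zero => simp
    | succ m ih =>
      rw [ih, h]
      push_cast
      rfl
  have h1 : ∀ j : ZMod N, f 0 = f j := by
    intro j
    have := h0 j.val
    rwa [ZMod.natCast_zmod_val] at this
  rw [← h1 j, h1 j']

/-! ### The graph is good -/

theorem cell_const (Q p : ℕ) [Fact p.Prime] (hpQ : 5 * Q + 10 ≤ p) (S : Finset (AffU p))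
    (hS : S.card < Q) (s : AffU p → Prop)
    (h : ∀ i j, i ∉ S → j ∉ S → (affX p).Adj i j → (s i ↔ s j)) (i j : AffU p)
    (hi : i ∉ S) (hj : j ∉ S) : s i ↔ s j := by
  have key : ∀ i j, i ∉ S → j ∉ S → s i → s j := by
    intro i j hi hj hs
    by_contra hns
    obtain ⟨a, ha, b, hb, hab⟩ := (affX_good Q p hpQ).conn S hS (univ.filter fun a => a ∉ S ∧ s a)
      (fun a ha => by
        have := (Finset.mem_filter.1 ha).2.1
        simpa using this) ⟨i, by simp [hi, hs]⟩ ⟨j, by simp [hj, hns]⟩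
    have ha' := (Finset.mem_filter.1 ha).2
    have hb' : b ∉ S ∧ ¬ (b ∉ S ∧ s b) := by
      simpa only [Finset.mem_sdiff, Finset.mem_filter, Finset.mem_univ, true_and] using hb
    have hb1 : b ∉ S := hb'.1
    have hb2 : ¬ (b ∉ S ∧ s b) := hb'.2
    exact hb2 ⟨hb1, (h a b ha'.1 hb1 hab).1 ha'.2⟩
  exact ⟨key i j hi hj, key j i hj hi⟩

omit [Fact (1 < N)] in
theorem exists_port [Fact p.Prime] (S : Finset (GU N p)) (hS : 2 * S.card < p)
    (g : ZMod N × ZMod N) (c : Fin 4) :
    ∃ x : ZMod p, (g, (Sum.inl (x, io p c) : AffU p)) ∉ S ∧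
      (g + dr N c, (Sum.inl (x, io p (opp c)) : AffU p)) ∉ S := by
  by_contra hno
  push Not at hno
  set A : Finset (ZMod p) := univ.filter
    (fun x => ((g, (Sum.inl (x, io p c) : AffU p)) : GU N p) ∈ S) with hA
  set B : Finset (ZMod p) := univ.filter
    (fun x => ((g + dr N c, (Sum.inl (x, io p (opp c)) : AffU p)) : GU N p) ∈ S) with hB
  have hcov : (univ : Finset (ZMod p)) ⊆ A ∪ B := by
    intro x _
    rw [Finset.mem_union]
    by_cases h2 : ((g, (Sum.inl (x, io p c) : AffU p)) : GU N p) ∈ S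
    · exact Or.inl (by rw [hA, Finset.mem_filter]; exact ⟨Finset.mem_univ _, h2⟩)
    · exact Or.inr (by rw [hB, Finset.mem_filter]; exact ⟨Finset.mem_univ _, hno x h2⟩)
  have hAc : A.card ≤ S.card := card_pre_le
    (fun x : ZMod p => ((g, (Sum.inl (x, io p c) : AffU p)) : GU N p)) A
    (fun m _ m' _ h => congrArg Prod.fst (Sum.inl.inj (congrArg Prod.snd h))) S
    (fun m hm => (Finset.mem_filter.1 hm).2)
  have hBc : B.card ≤ S.card := card_pre_le
    (fun x : ZMod p => ((g + dr N c, (Sum.inl (x, io p (opp c)) : AffU p)) : GU N p)) B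
    (fun m _ m' _ h => congrArg Prod.fst (Sum.inl.inj (congrArg Prod.snd h))) S
    (fun m hm => (Finset.mem_filter.1 hm).2)
  have h1 := Finset.card_le_card hcov
  rw [Finset.card_univ, ZMod.card] at h1
  have h3 := Finset.card_union_le A B
  omega

theorem gX_good [NeZero N] (Q p : ℕ) [Fact p.Prime] (hpQ : 5 * Q + 10 ≤ p) :
    Good (gX N p) univ Q := by
  have hp4 : 4 ≤ p := by omega
  refine ⟨?_, ?_, ?_, ?_, ?_⟩
  · intro a b c h1 h2 h3
    rcases id h1 with h1' | h1'
    · rcases id h2 with h2' | h2'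
      · rcases id h3 with h3' | h3'
        · exact (affX_good Q p hpQ).tri _ _ _ h1'.2 h2'.2 h3'.2
        · exact tri_ext hp4 h3' h1 h2
      · exact tri_ext hp4 h2' h3 h1
    · exact tri_ext hp4 h1' h2 h3
  · intro a b c d h1 h2 h3 h4
    rcases id h1 with h1' | h1'
    · rcases id h2 with h2' | h2'
      · rcases id h3 with h3' | h3'
        · rcases id h4 with h4' | h4'
          · rcases (affX_good Q p hpQ).c4 _ _ _ _ h1'.2 h2'.2 h3'.2 h4'.2 with h | h
            · exact Or.inl (Prod.ext (h1'.1.trans h2'.1) h)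
            · exact Or.inr (Prod.ext (h2'.1.trans h3'.1) h)
          · rcases c4_ext hp4 h4' h1 h2 h3 with h | h
            · exact Or.inr h.symm
            · exact Or.inl h
        · rcases c4_ext hp4 h3' h4 h1 h2 with h | h
          · exact Or.inl h.symm
          · exact Or.inr h.symm
      · rcases c4_ext hp4 h2' h3 h4 h1 with h | h
        · exact Or.inr h
        · exact Or.inl h.symm
    · exact c4_ext hp4 h1' h2 h3 h4
  · intro i _
    have h1 := (affX_good Q p hpQ).deg i.2 (Finset.mem_univ _)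
    refine h1.trans (Finset.card_le_card_of_injOn (fun j => (i.1, j)) ?_ ?_)
    · intro j hj
      have hj' := (Finset.mem_filter.1 (Finset.mem_coe.1 hj)).2
      exact Finset.mem_coe.2 (Finset.mem_filter.2 ⟨Finset.mem_univ _, Or.inl ⟨rfl, hj'⟩⟩)
    · intro a _ b _ h
      exact congrArg Prod.snd h
  · intro S hS T hT hTne hRne
    by_contra hcon
    push Not at hcon
    have key : ∀ i j, i ∉ S → j ∉ S → (gX N p).Adj i j → i ∈ T → j ∈ T := by
      intro i j _ hj hij hi
      by_contra hjT
      exact hcon i hi j (by simp [hj, hjT]) hij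
    have side : ∀ i j, i ∉ S → j ∉ S → (gX N p).Adj i j → (i ∈ T ↔ j ∈ T) :=
      fun i j hi hj hij => ⟨key i j hi hj hij, key j i hj hi hij.symm⟩
    -- in a cell
    have cell : ∀ (g : ZMod N × ZMod N) (a b : AffU p), (g, a) ∉ S → (g, b) ∉ S →
        ((g, a) ∈ T ↔ (g, b) ∈ T) := by
      intro g a b ha hb
      have hSg : (univ.filter fun a : AffU p => ((g, a) : GU N p) ∈ S).card < Q := by
        refine lt_of_le_of_lt (Finset.card_le_card_of_injOn (fun j => (g, j)) ?_ ?_) hS
        · intro j hj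
          exact Finset.mem_coe.2 (Finset.mem_filter.1 (Finset.mem_coe.1 hj)).2
        · intro a _ b _ h
          exact congrArg Prod.snd h
      refine cell_const Q p hpQ (univ.filter fun a : AffU p => ((g, a) : GU N p) ∈ S) hSg
        (fun a => (g, a) ∈ T) (fun i j hi hj hij => ?_) a b ?_ ?_
      · refine side _ _ (fun h => hi ?_) (fun h => hj ?_) (Or.inl ⟨rfl, hij⟩)
        · exact Finset.mem_filter.2 ⟨Finset.mem_univ _, h⟩
        · exact Finset.mem_filter.2 ⟨Finset.mem_univ _, h⟩
      · exact fun h => ha (Finset.mem_filter.1 h).2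
      · exact fun h => hb (Finset.mem_filter.1 h).2
    have hport := fun g c => exists_port S (by omega) g c (N := N) (p := p)
    have tor : ∀ g c, (∀ a : AffU p, (g, a) ∉ S → (g, a) ∈ T) ↔
        (∀ a : AffU p, (g + dr N c, a) ∉ S → (g + dr N c, a) ∈ T) := by
      intro g c
      obtain ⟨x, hx1, hx2⟩ := hport g c
      have hs := side _ _ hx1 hx2 (Or.inr ⟨c, x, rfl, rfl⟩)
      constructor
      · intro h a ha
        exact (cell _ _ _ hx2 ha).1 (hs.1 (h _ hx1))
      · intro h a ha
        exact (cell _ _ _ hx1 ha).1 (hs.2 (h _ hx2))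
    have hall := torus_const (N := N)
      (s := fun g => ∀ a : AffU p, (g, a) ∉ S → (g, a) ∈ T) tor
    obtain ⟨i, hi⟩ := hTne
    obtain ⟨j, hj⟩ := hRne
    have hiS : i ∉ S := by simpa using hT hi
    have hj' : j ∉ S ∧ j ∉ T := by simpa using hj
    have h1 : ∀ a : AffU p, (i.1, a) ∉ S → (i.1, a) ∈ T :=
      fun a ha => (cell i.1 i.2 a hiS ha).1 hi
    exact hj'.2 ((hall i.1 j.1).1 h1 j.2 hj'.1)
  · exact ⟨(0, Sum.inl (0, 0)), Finset.mem_univ _⟩

/-! ### The isoperimetric property -/

/-- the cell `g` and its neighbours -/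
noncomputable def nbc (N : ℕ) (g : ZMod N × ZMod N) : Finset (ZMod N × ZMod N) :=
  insert g (univ.image fun c => g + dr N c)

theorem nbc_card (N : ℕ) (g : ZMod N × ZMod N) : (nbc N g).card ≤ 5 := by
  have h1 := Finset.card_insert_le g (univ.image fun c => g + dr N c)
  have h2 : (univ.image fun c => g + dr N c).card ≤ (univ : Finset (Fin 4)).card :=
    Finset.card_image_le
  rw [Finset.card_univ, Fintype.card_fin] at h2
  unfold nbc
  omega

/-- the cells at distance at most `n` -/
noncomputable def ball (N : ℕ) : ℕ → ZMod N × ZMod N → Finset (ZMod N × ZMod N)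
  | 0, g => {g}
  | n + 1, g => (nbc N g).biUnion (ball N n)

theorem ball_card (N : ℕ) : ∀ (n : ℕ) (g : ZMod N × ZMod N), (ball N n g).card ≤ 5 ^ n
  | 0, g => by simp [ball]
  | n + 1, g => by
    have h1 : (ball N (n + 1) g).card ≤ (nbc N g).card * 5 ^ n :=
      Finset.card_biUnion_le_card_mul _ _ _ fun x _ => ball_card N n x
    refine h1.trans ?_
    rw [pow_succ, mul_comm]
    exact Nat.mul_le_mul_left _ (nbc_card N g)

theorem self_mem_ball (N : ℕ) : ∀ (n : ℕ) (g : ZMod N × ZMod N), g ∈ ball N n g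
  | 0, g => by simp [ball]
  | n + 1, g => by
    rw [ball, Finset.mem_biUnion]
    exact ⟨g, Finset.mem_insert_self _ _, self_mem_ball N n g⟩

theorem walk_ball {a b : GU N p} (w : (gX N p).Walk a b) :
    ∀ n : ℕ, w.length ≤ n → b.1 ∈ ball N n a.1 := by
  induction w with
  | nil => exact fun n _ => self_mem_ball N n _
  | cons h w ih =>
    intro n hn
    rw [SimpleGraph.Walk.length_cons] at hn
    obtain ⟨k, rfl⟩ : ∃ k, n = k + 1 := ⟨n - 1, by omega⟩
    rw [ball, Finset.mem_biUnion]
    refine ⟨_, ?_, ih k (by omega)⟩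
    rcases h with h | h
    · rw [← h.1]
      exact Finset.mem_insert_self _ _
    · obtain ⟨c, x, -, rfl⟩ := h
      exact Finset.mem_insert_of_mem (Finset.mem_image_of_mem _ (Finset.mem_univ c))

theorem gX_iso [NeZero N] (p t d : ℕ) [Fact p.Prime] (hp : 15 ≤ p)
    (hN : N = 2 * (t * 5 ^ d) + 2) : Iso (gX N p) t d := by
  intro T hT r hr
  set m := t * 5 ^ d with hm
  set Bad : Finset (ZMod N × ZMod N) := T.biUnion fun c => ball N d c.1 with hBad
  have hBadc : Bad.card ≤ m := by
    have h1 : Bad.card ≤ T.card * 5 ^ d :=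
      Finset.card_biUnion_le_card_mul _ _ _ fun x _ => ball_card N d x.1
    exact h1.trans (Nat.mul_le_mul_right _ hT)
  have hnear : ∀ c ∈ T, ∀ a : GU N p, Near (gX N p) d c a → a.1 ∈ Bad := by
    rintro c hc a ⟨w, hw⟩
    rw [hBad, Finset.mem_biUnion]
    exact ⟨c, hc, walk_ball w d hw⟩
  have hedge : ∀ a b : GU N p, (gX N p).Adj a b → a.1 ∉ Bad → b.1 ∉ Bad → r a = r b := by
    intro a b hab ha hb
    by_contra hne
    obtain ⟨c, hc, h | h⟩ := hr a b hab hne
    · exact ha (hnear c hc a h)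
    · exact hb (hnear c hc b h)
  have hcell : ∀ g : ZMod N × ZMod N, g ∉ Bad → ∀ a b : AffU p, r (g, a) = r (g, b) := by
    intro g hg a b
    have h1 := cell_const 1 p (by omega) (∅ : Finset (AffU p)) (by simp)
      (fun x => r (g, x) = r (g, b)) (fun i j _ _ hij => by
        rw [hedge (g, i) (g, j) (Or.inl ⟨rfl, hij⟩) hg hg]) a b (by simp) (by simp)
    exact h1.2 rfl
  set ρ : ZMod N × ZMod N → ZMod 2 := fun g => r (g, Sum.inl (0, 0)) with hρ
  have hstep : ∀ g c, g ∉ Bad → g + dr N c ∉ Bad → ρ g = ρ (g + dr N c) := by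
    intro g c h1 h2
    have h3 : r (g, Sum.inl (0, io p c)) = r (g + dr N c, Sum.inl (0, io p (opp c))) :=
      hedge _ _ (Or.inr ⟨c, 0, rfl, rfl⟩) h1 h2
    simp only [hρ]
    rw [hcell g h1 _ (Sum.inl (0, io p c)), h3]
    exact hcell _ h2 _ _
  set bc : Finset (ZMod N) := Bad.image Prod.fst with hbc
  set br : Finset (ZMod N) := Bad.image Prod.snd with hbr
  have hbcc : bc.card ≤ m := Finset.card_image_le.trans hBadc
  have hbrc : br.card ≤ m := Finset.card_image_le.trans hBadc
  have hcolgood : ∀ i, i ∉ bc → ∀ j, (i, j) ∉ Bad := fun i hi j h =>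
    hi (Finset.mem_image.2 ⟨(i, j), h, rfl⟩)
  have hrowgood : ∀ j, j ∉ br → ∀ i, (i, j) ∉ Bad := fun j hj i h =>
    hj (Finset.mem_image.2 ⟨(i, j), h, rfl⟩)
  have hex : ∀ s : Finset (ZMod N), s.card ≤ m → ∃ i, i ∉ s := by
    intro s hs
    by_contra hno
    push Not at hno
    have h1 : s = univ := Finset.eq_univ_iff_forall.2 hno
    rw [h1, Finset.card_univ, ZMod.card] at hs
    omega
  obtain ⟨i₀, hi₀⟩ := hex bc hbcc
  obtain ⟨j₀, hj₀⟩ := hex br hbrc
  have hcol : ∀ i, i ∉ bc → ∀ j j', ρ (i, j) = ρ (i, j') := by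
    intro i hi
    refine line_const (f := fun j => ρ (i, j)) fun j => ?_
    have h1 := hstep (i, j) 2 (hcolgood i hi j) (by
      have : ((i, j) : ZMod N × ZMod N) + dr N 2 = (i, j + 1) := by
        refine Prod.ext ?_ ?_ <;> simp [dr]
      rw [this]
      exact hcolgood i hi _)
    have h2 : ((i, j) : ZMod N × ZMod N) + dr N 2 = (i, j + 1) := by
      refine Prod.ext ?_ ?_ <;> simp [dr]
    rw [h2] at h1
    exact h1
  have hrow : ∀ j, j ∉ br → ∀ i i', ρ (i, j) = ρ (i', j) := by
    intro j hj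
    refine line_const (f := fun i => ρ (i, j)) fun i => ?_
    have h1 := hstep (i, j) 0 (hrowgood j hj i) (by
      have : ((i, j) : ZMod N × ZMod N) + dr N 0 = (i + 1, j) := by
        refine Prod.ext ?_ ?_ <;> simp [dr]
      rw [this]
      exact hrowgood j hj _)
    have h2 : ((i, j) : ZMod N × ZMod N) + dr N 0 = (i + 1, j) := by
      refine Prod.ext ?_ ?_ <;> simp [dr]
    rw [h2] at h1
    exact h1
  refine ⟨ρ (i₀, j₀), ?_⟩
  have hsub : (univ.filter fun i : GU N p => r i ≠ ρ (i₀, j₀)) ⊆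
      (bc ×ˢ br) ×ˢ (univ : Finset (AffU p)) := by
    rintro ⟨⟨i, j⟩, a⟩ h
    have h' := (Finset.mem_filter.1 h).2
    rw [Finset.mem_product, Finset.mem_product]
    refine ⟨⟨?_, ?_⟩, Finset.mem_univ _⟩
    · by_contra hi
      refine h' ?_
      rw [hcell (i, j) (hcolgood i hi j) a (Sum.inl (0, 0))]
      exact (hcol i hi j j₀).trans (hrow j₀ hj₀ i i₀)
    · by_contra hj
      refine h' ?_
      rw [hcell (i, j) (hrowgood j hj i) a (Sum.inl (0, 0))]
      exact (hrow j hj i i₀).trans (hcol i₀ hi₀ j j₀)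
  have hcard := Finset.card_le_card hsub
  rw [Finset.card_product, Finset.card_product, Finset.card_univ] at hcard
  have hU : Fintype.card (GU N p) = N * N * Fintype.card (AffU p) := by
    rw [Fintype.card_prod, Fintype.card_prod, ZMod.card]
  rw [hU]
  have hA : 0 < Fintype.card (AffU p) := Fintype.card_pos_iff.2 ⟨Sum.inl (0, 0)⟩
  have h1 : bc.card * br.card ≤ m * m := Nat.mul_le_mul hbcc hbrc
  have h2 : 3 * (m * m) < N * N := by
    rw [hN]
    nlinarith
  calc 3 * (univ.filter fun i : GU N p => r i ≠ ρ (i₀, j₀)).card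
      ≤ 3 * (m * m * Fintype.card (AffU p)) :=
        Nat.mul_le_mul_left _ (hcard.trans (Nat.mul_le_mul_right _ h1))
    _ = 3 * (m * m) * Fintype.card (AffU p) := by ring
    _ < N * N * Fintype.card (AffU p) := Nat.mul_lt_mul_of_pos_right h2 hA

theorem exists_good_iso (Q t d : ℕ) :
    ∃ (U : Type) (_ : Fintype U) (X : SimpleGraph U), Good X univ Q ∧ Iso X t d := by
  obtain ⟨p, hp, hpp⟩ := Nat.exists_infinite_primes (5 * Q + 15)
  have : Fact p.Prime := ⟨hpp⟩
  have : NeZero p := ⟨hpp.ne_zero⟩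
  have : Fact (1 < 2 * (t * 5 ^ d) + 2) := ⟨by omega⟩
  have : NeZero (2 * (t * 5 ^ d) + 2) := ⟨by omega⟩
  exact ⟨GU (2 * (t * 5 ^ d) + 2) p, inferInstance, gX (2 * (t * 5 ^ d) + 2) p,
    gX_good Q p (by omega), gX_iso p t d (by omega) rfl⟩

end Pool.Agent.HomT
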