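import Pool.Agent.HomI.Def
import Pool.Agent.HomV.Defs

/-!
# Thin graphs

Decompositions of a graph into small pieces along cuts whose crossing edges are all near a few
vertices.
-/

set_option autoImplicit false

namespace Pool.Agent.HomT

open Pool.Agent.HomV Pool.Agent.HomI

variable {V : Type}

/-- there is a walk of length at most `d` from `a` to `b` -/
def Near (F : SimpleGraph V) (d : ℕ) (a b : V) : Prop := ∃ w : F.Walk a b, w.length ≤ d

/-- there are at most `k` vertices such that every edge between `Y` and its complement has an end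
at distance at most `k` from one of them -/
def ThinCut (k : ℕ) (F : SimpleGraph V) (Y : Set V) : Prop :=
  ∃ C : Finset V, C.card ≤ k ∧
    ∀ a ∈ Y, ∀ b ∉ Y, F.Adj a b → ∃ c ∈ C, Near F k c a ∨ Near F k c b

/-- the vertex set `Y` can be divided into two disjoint parts, these again into two disjoint parts
and so on, until the parts have at most one vertex, and all sets in this hierarchy give thin cuts -/
inductive Dec (k : ℕ) (F : SimpleGraph V) : Set V → Prop
  | leaf (Y : Set V) (h : Y.Subsingleton) : Dec k F Y
  | node (Y Z : Set V) (hY : Dec k F Y) (hZ : Dec k F Z) (hd : Disjoint Y Z)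
      (h : ThinCut k F (Y ∪ Z)) : Dec k F (Y ∪ Z)

/-- `F` is `k`-thin: there is such a hierarchy for the set of all vertices. -/
def Thin (k : ℕ) (F : SimpleGraph V) : Prop := Dec k F Set.univ

/-- the subgraph of `F` induced by `A` (on the same vertex type; the vertices outside `A` are
isolated) -/
def ind (F : SimpleGraph V) (A : Set V) : SimpleGraph V where
  Adj u v := F.Adj u v ∧ u ∈ A ∧ v ∈ A
  symm := ⟨fun _ _ h => ⟨h.1.symm, h.2.2, h.2.1⟩⟩
  loopless := ⟨fun _ h => h.1.ne rfl⟩

/-- The closure under gluing along complete subgraphs of the following graphs: the graphs obtained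
by clique sums of order at most `k` from `k`-nearly embeddable graphs, the graphs without an
immersion of the complete graph with `k` vertices, and the `k`-thin graphs. -/
inductive Mixed (k : ℕ) : SimpleGraph V → Prop
  | minor (F : SimpleGraph V) (h : InClass k F) : Mixed k F
  | immersion (F : SimpleGraph V) (h : IsEmpty (CliqueImm k F)) : Mixed k F
  | thin (F : SimpleGraph V) (h : Thin k F) : Mixed k F
  | glue (F : SimpleGraph V) (A B : Set V) (hAB : A ∪ B = Set.univ)
      (hadj : ∀ u v, F.Adj u v → (u ∈ A ∧ v ∈ A) ∨ (u ∈ B ∧ v ∈ B))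
      (hcomplete : ∀ u ∈ A ∩ B, ∀ v ∈ A ∩ B, u ≠ v → F.Adj u v)
      (hA : Mixed k (ind F A)) (hB : Mixed k (ind F B)) : Mixed k F

end Pool.Agent.HomT
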