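import Pool.Agent.HomT.Def

/-!
# The isoperimetric property of the base graph
-/

set_option autoImplicit false

namespace Pool.Agent.HomT

open Finset Classical

/-- a labelling `r` of the vertices of `X` which is constant along all edges that are not near
one of `t` vertices is constant on more than two thirds of the vertices -/
def Iso {U : Type} [Fintype U] (X : SimpleGraph U) (t d : ℕ) : Prop :=
  ∀ T : Finset U, T.card ≤ t → ∀ r : U → ZMod 2,
    (∀ i j, X.Adj i j → r i ≠ r j → ∃ c ∈ T, Near X d c i ∨ Near X d c j) →
    ∃ c : ZMod 2, 3 * (univ.filter fun i => r i ≠ c).card < Fintype.card U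

end Pool.Agent.HomT
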