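import Pool.Agent.HomT.Iso
import Pool.Agent.HomI.Lab

/-!
# Thin graphs contain no homological copy of the base graph (helper20)

`cross`: as in `cut_const` (HomI/Lab): `dl X univ r = ∑ a ∈ S, ∑ b ∈ Sᶜ, y a b`, `dl_mk` at `s(i, j)`.
`no_copy_thin`: for `Dec k F Y`: `3 * #{i | r_Y i ≠ 0} < #U`. Leaf: at most one `i` (`hU`). Node: `r = r_Y + r_Z`,
`Iso` with `T = C.image H.f` gives `c`; `c = 1` is impossible (`#{r ≠ 0} < 2/3 #U`). Root: `r = 1`.
-/

set_option autoImplicit false

namespace Pool.Agent.HomT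

open Finset Classical Pool.Agent.HomV Pool.Agent.HomI

variable {U : Type} [Fintype U] {V : Type} [Fintype V] {X : SimpleGraph U}

/-- the labels inside a set cancel -/
private theorem sum_sym_zero (s : Finset V) (y : V → V → Ch U) (hs : ∀ a b, y a b = y b a)
    (h0 : ∀ a, y a a = 0) : ∑ a ∈ s, ∑ b ∈ s, y a b = 0 := by
  induction s using Finset.induction_on with
  | empty => simp
  | insert a s ha ih =>
    rw [Finset.sum_insert ha, Finset.sum_insert ha, h0, zero_add]
    have h1 : ∀ x ∈ s, ∑ b ∈ insert a s, y x b = y a x + ∑ b ∈ s, y x b := by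
      intro x _
      rw [Finset.sum_insert ha, hs]
    rw [Finset.sum_congr rfl h1, Finset.sum_add_distrib, ih, add_zero, ch_add_self]

/-- a weighted sum of stars is a cut -/
private theorem dl_push (f : V → U) (s : Finset V) (t : V → ZMod 2) :
    dl X univ (fun i => ∑ a ∈ s, if f a = i then t a else 0) =
      ∑ a ∈ s, t a • star X univ (f a) := by
  funext e
  unfold dl
  rw [Finset.sum_apply]
  have h1 : ∀ i : U, (∑ a ∈ s, if f a = i then t a else 0) * star X univ i e =
      ∑ a ∈ s, if f a = i then t a * star X univ (f a) e else 0 := by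
    intro i
    rw [Finset.sum_mul]
    refine Finset.sum_congr rfl fun a _ => ?_
    by_cases h : f a = i
    · rw [if_pos h, if_pos h, h]
    · rw [if_neg h, if_neg h, zero_mul]
  rw [Finset.sum_congr rfl fun i _ => h1 i, Finset.sum_comm]
  refine Finset.sum_congr rfl fun a _ => ?_
  rw [Finset.sum_ite_eq Finset.univ (f a), if_pos (Finset.mem_univ _)]
  rfl

/-- a non-constant edge comes from a crossing edge of `F` -/
theorem cross {F : SimpleGraph V} (H : HomX X univ F)
    (hf : ∀ a b, F.Adj a b → X.Adj (H.f a) (H.f b)) (S : Finset V) {i j : U} (hij : X.Adj i j)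
    (h : ∑ a ∈ S, (if H.f a = i then H.t a else 0) ≠ ∑ a ∈ S, (if H.f a = j then H.t a else 0)) :
    ∃ a ∈ S, ∃ b ∉ S, F.Adj a b ∧ s(H.f a, H.f b) = s(i, j) := by
  have h2 : dl X univ (fun i => ∑ a ∈ S, if H.f a = i then H.t a else 0) =
      ∑ a ∈ S, ∑ b ∈ Sᶜ, H.y a b := by
    rw [dl_push]
    have h3 : ∀ a ∈ S, H.t a • star X univ (H.f a) =
        ∑ b ∈ S, H.y a b + ∑ b ∈ Sᶜ, H.y a b := by
      intro a _
      rw [← H.eqn a, Finset.sum_add_sum_compl]
    rw [Finset.sum_congr rfl h3, Finset.sum_add_distrib, sum_sym_zero _ H.y H.y_symm, zero_add]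
    intro a
    by_contra h
    exact F.loopless.irrefl a (H.y_adj a a h)
  have he' : dl X univ (fun i => ∑ a ∈ S, if H.f a = i then H.t a else 0) s(i, j) ≠ 0 := by
    rw [dl_mk, if_pos ⟨hij, Finset.mem_univ _, Finset.mem_univ _⟩]
    intro h0
    exact h ((by decide : ∀ x y : ZMod 2, x + y = 0 → x = y) _ _ h0)
  rw [h2, Finset.sum_apply] at he'
  obtain ⟨a, ha, h4⟩ := Finset.exists_ne_zero_of_sum_ne_zero he'
  rw [Finset.sum_apply] at h4
  obtain ⟨b, hb, h5⟩ := Finset.exists_ne_zero_of_sum_ne_zero h4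
  have h6 : H.y a b ≠ 0 := fun h => h5 (by rw [h]; rfl)
  have hab := H.y_adj a b h6
  have hX := hf a b hab
  have h7 := (H.y_star a b).mem _ h5
  have h8 := (H.y_star b a).mem _ (by rw [← H.y_symm a b]; exact h5)
  exact ⟨a, ha, b, Finset.mem_compl.mp hb, hab,
    ((Sym2.mem_and_mem_iff hX.ne).mp ⟨h7, h8⟩).symm⟩

private theorem near_map {F : SimpleGraph V} {f : V → U}
    (hf : ∀ a b, F.Adj a b → X.Adj (f a) (f b)) {d : ℕ} {a b : V} (h : Near F d a b) :
    Near X d (f a) (f b) := by
  obtain ⟨w, hw⟩ := h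
  let φ : F →g X := ⟨f, fun {a b} hab => hf a b hab⟩
  exact ⟨w.map φ, by rw [SimpleGraph.Walk.length_map]; exact hw⟩

private theorem mem_fl {Y : Set V} {a : V} :
    a ∈ (univ : Finset V).filter (fun a => a ∈ Y) ↔ a ∈ Y := by
  rw [Finset.mem_filter]
  exact ⟨fun h => h.2, fun h => ⟨Finset.mem_univ _, h⟩⟩

/-- the parities of a set of vertices -/
private noncomputable def rr {F : SimpleGraph V} (H : HomX X univ F) (Y : Set V) (i : U) : ZMod 2 :=
  ∑ a ∈ univ.filter (fun a => a ∈ Y), (if H.f a = i then H.t a else 0)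

private theorem dec_small {k : ℕ} (hI : Iso X k k) (hU : 3 < Fintype.card U) {F : SimpleGraph V}
    (H : HomX X univ F) (hf : ∀ a b, F.Adj a b → X.Adj (H.f a) (H.f b)) {Y : Set V}
    (hY : Dec k F Y) : 3 * (univ.filter fun i => rr H Y i ≠ 0).card < Fintype.card U := by
  induction hY with
  | leaf Y h =>
    have h1 : (univ.filter fun i => rr H Y i ≠ 0).card ≤ 1 := by
      rw [Finset.card_le_one]
      intro i hi j hj
      obtain ⟨a, ha, hai⟩ := Finset.exists_ne_zero_of_sum_ne_zero (Finset.mem_filter.mp hi).2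
      obtain ⟨b, hb, hbj⟩ := Finset.exists_ne_zero_of_sum_ne_zero (Finset.mem_filter.mp hj).2
      have e1 : H.f a = i := by
        by_contra hne
        exact hai (if_neg hne)
      have e2 : H.f b = j := by
        by_contra hne
        exact hbj (if_neg hne)
      rw [← e1, ← e2, h (Finset.mem_filter.mp ha).2 (Finset.mem_filter.mp hb).2]
    omega
  | node Y Z hY hZ hd h ihY ihZ =>
    have hadd : ∀ i, rr H (Y ∪ Z) i = rr H Y i + rr H Z i := by
      intro i
      unfold rr
      rw [← Finset.sum_union]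
      · refine Finset.sum_congr ?_ fun _ _ => rfl
        ext a
        simp
      · rw [Finset.disjoint_filter]
        intro a _ haY haZ
        exact Set.disjoint_left.mp hd haY haZ
    have hle : (univ.filter fun i => rr H (Y ∪ Z) i ≠ 0).card ≤
        (univ.filter fun i => rr H Y i ≠ 0).card + (univ.filter fun i => rr H Z i ≠ 0).card := by
      refine (Finset.card_le_card ?_).trans (Finset.card_union_le _ _)
      intro i hi
      rw [Finset.mem_union, Finset.mem_filter, Finset.mem_filter]
      by_contra hcon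
      rw [not_or] at hcon
      have e1 : rr H Y i = 0 := by
        by_contra hne
        exact hcon.1 ⟨Finset.mem_univ _, hne⟩
      have e2 : rr H Z i = 0 := by
        by_contra hne
        exact hcon.2 ⟨Finset.mem_univ _, hne⟩
      apply (Finset.mem_filter.mp hi).2
      rw [hadd, e1, e2, add_zero]
    obtain ⟨C, hC, hcut⟩ := h
    obtain ⟨c, hc⟩ := hI (C.image H.f) (Finset.card_image_le.trans hC) (rr H (Y ∪ Z)) (by
      intro i j hij hne
      obtain ⟨a, ha, b, hb, hab, he⟩ := cross H hf _ hij hne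
      have ha' : a ∈ Y ∪ Z := mem_fl.mp ha
      have hb' : b ∉ Y ∪ Z := fun h => hb (mem_fl.mpr h)
      obtain ⟨c, hcC, hc⟩ := hcut a ha' b hb' hab
      refine ⟨H.f c, Finset.mem_image_of_mem _ hcC, ?_⟩
      rcases Sym2.eq_iff.mp he with ⟨rfl, rfl⟩ | ⟨rfl, rfl⟩
      · exact hc.imp (near_map hf) (near_map hf)
      · exact (hc.imp (near_map hf) (near_map hf)).symm)
    rcases (by decide : ∀ x : ZMod 2, x = 0 ∨ x = 1) c with rfl | rfl
    · exact hc
    · exfalso
      have h1 : (univ.filter fun i => rr H (Y ∪ Z) i ≠ 0).card +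
          (univ.filter fun i => rr H (Y ∪ Z) i ≠ 1).card ≥ Fintype.card U := by
        rw [← Finset.card_univ]
        refine le_trans (Finset.card_le_card ?_) (Finset.card_union_le _ _)
        intro i _
        rw [Finset.mem_union, Finset.mem_filter, Finset.mem_filter]
        rcases (by decide : ∀ x : ZMod 2, x ≠ 0 ∨ x ≠ 1) (rr H (Y ∪ Z) i) with h | h
        · exact Or.inl ⟨Finset.mem_univ _, h⟩
        · exact Or.inr ⟨Finset.mem_univ _, h⟩
      omega

theorem no_copy_thin {k : ℕ} (hI : Iso X k k) (hU : 3 < Fintype.card U) {F : SimpleGraph V}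
    (hF : Thin k F) (H : HomX X univ F) (hf : ∀ a b, F.Adj a b → X.Adj (H.f a) (H.f b)) :
    False := by
  have h1 := dec_small hI hU H hf hF
  have h2 : (univ.filter fun i => rr H Set.univ i ≠ 0) = (univ : Finset U) := by
    rw [Finset.filter_eq_self]
    intro i _
    have h3 := H.total i (Finset.mem_univ i)
    rw [Finset.sum_filter] at h3
    have h4 : rr H Set.univ i = 1 := by
      rw [← h3]
      unfold rr
      refine Finset.sum_congr ?_ fun _ _ => rfl
      ext a
      simp
    rw [h4]
    exact one_ne_zero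
  rw [h2, Finset.card_univ] at h1
  omega

end Pool.Agent.HomT
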