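import Pool.Agent.HomT.Grid
import Pool.Agent.HomT.ThinC
import Pool.Agent.HomI.Main

/-!
# Homomorphism counts from the class `Mixed` do not decide isomorphism (helper20)

Copy of HomI/Main (`no_copy_sparse`, `main`) with the case `thin` (`no_copy_thin`) and the base graph of
`exists_good_iso` (`3 < card U` from `Good.deg`, `Q` large). `torso_eq_ind` for this `ind`: copy.
-/

set_option autoImplicit false

namespace Pool.Agent.HomT

open Finset Classical Pool.Agent.HomV Pool.Agent.HomI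

private theorem torso_eq {V : Type} {F : SimpleGraph V} {A B : Set V}
    (hcomplete : ∀ u ∈ A ∩ B, ∀ v ∈ A ∩ B, u ≠ v → F.Adj u v) :
    torso F A B = Pool.Agent.HomT.ind F A := by
  ext u v
  show (u ≠ v ∧ u ∈ A ∧ v ∈ A ∧ (F.Adj u v ∨ (u ∈ B ∧ v ∈ B))) ↔ (F.Adj u v ∧ u ∈ A ∧ v ∈ A)
  constructor
  · rintro ⟨h, hu, hv, h' | ⟨hu', hv'⟩⟩
    · exact ⟨h', hu, hv⟩
    · exact ⟨hcomplete u ⟨hu, hu'⟩ v ⟨hv, hv'⟩ h, hu, hv⟩
  · rintro ⟨h, hu, hv⟩
    exact ⟨h.ne, hu, hv, Or.inl h⟩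

/-- no graph of the class contains a homological copy of `X` over a homomorphism -/
theorem no_copy_mixed {k Q : ℕ} (hQ1 : k ≤ Q) (hQ2 : (k - 1) ^ 2 ≤ Q) (hQ3 : 2 < Q) {U : Type}
    [Fintype U] {X : SimpleGraph U} (hG : Good X univ Q) (hI : Iso X k k)
    (hU : 3 < Fintype.card U)
    (hQ : ∀ {V : Type} [Fintype V] (F : SimpleGraph V), InClass k F → IsEmpty (HomX X univ F))
    {V : Type} [Fintype V] {F : SimpleGraph V} (hF : Mixed k F) :
    ∀ H : HomX X univ F, (∀ a b, F.Adj a b → X.Adj (H.f a) (H.f b)) → False := by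
  induction hF with
  | minor F h => exact fun H _ => (hQ F h).false H
  | immersion F h => exact fun H hf => no_copy hQ1 hQ2 hG h H hf
  | thin F h => exact fun H hf => no_copy_thin hI hU h H hf
  | glue F A B hAB hadj hcomplete hA hB ihA ihB =>
    intro H hf
    have h1 : (A ∩ B).ncard ≤ 2 := ncard_le_two hG.tri H.f _ fun u hu v hv huv =>
      hf u v (hcomplete u hu v hv huv)
    have hcomplete' : ∀ u ∈ B ∩ A, ∀ v ∈ B ∩ A, u ≠ v → F.Adj u v := fun u hu v hv =>
      hcomplete u ⟨hu.2, hu.1⟩ v ⟨hv.2, hv.1⟩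
    have hT : ∀ (C D : Set V), (∀ u ∈ C ∩ D, ∀ v ∈ C ∩ D, u ≠ v → F.Adj u v) → ∀ a b,
        (torso F C D).Adj a b → F.Adj a b := by
      intro C D hCD a b hab
      rw [torso_eq hCD] at hab
      exact hab.1
    rw [← torso_eq hcomplete] at ihA
    rw [← torso_eq hcomplete'] at ihB
    rcases homX_torso' hG hQ3 H A B hAB hadj h1 with ⟨H', hH'⟩ | ⟨H', hH'⟩
    · exact ihA H' fun a b hab => by
        rw [hH']
        exact hf a b (hT A B hcomplete a b hab)
    · exact ihB H' fun a b hab => by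
        rw [hH']
        exact hf a b (hT B A hcomplete' a b hab)

theorem main (k : ℕ) : ∃ (W W' : Type) (_ : Fintype W) (_ : Fintype W') (G : SimpleGraph W)
    (H : SimpleGraph W'), IsEmpty (G ≃g H) ∧
      ∀ (V : Type) [Fintype V] (F : SimpleGraph V), Mixed k F →
        Nat.card (F →g G) = Nat.card (F →g H) := by
  obtain ⟨Q, hQ⟩ := no_homX k
  obtain ⟨U, _, X, hG, hI⟩ := exists_good_iso (Q + k + (k - 1) ^ 2 + 4) k k
  obtain ⟨i₀, _⟩ := hG.ne
  have hG' := hG.mono (Q' := Q) (by omega)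
  have hU : 3 < Fintype.card U := by
    have h1 := hG.deg i₀ (mem_univ _)
    have h2 := card_filter_le (univ : Finset U) (fun j => X.Adj i₀ j)
    rw [card_univ] at h2
    omega
  exact ⟨_, _, inferInstance, inferInstance, cfi X 0, cfi X (Pi.single i₀ 1),
    cfi_not_iso hG (by omega) i₀, fun V _ F hF => cfi_hom' hG (by omega) i₀ F fun H hf =>
      no_copy_mixed (by omega) (by omega) (by omega) hG hI hU (fun F h => hQ X hG' F h) hF H hf⟩

end Pool.Agent.HomT
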